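import Pool.Agent.N671.DA.Win
import Pool.Agent.N481.MV.Two
import Pool.Agent.N905.EX.Law

/-!
# Excursions of the `3x+1` map near functions of the denominators of good approximations

Let `α_1, …, α_m` be real numbers. We consider the natural numbers `q` with `‖q α_j - β_j‖ ≤ c q^(-τ)` for all `j`, `‖x‖` the
distance to the nearest integer; for `β = 0`, `c = 1`, `τ = 1 / m` these include the denominators of all best simultaneous
approximations (the denominators of the convergents for `m = 1`). They form a very sparse sequence, with gaps growing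
exponentially for almost all `α` if `τ = 1 / m`. We show: let `G` be a function with steps bounded below by a positive constant
and growth at most `v^d`, for example `a v^d`. Let `0 < v ≤ 1`, `δ > 0`, `0 ≤ κ ≤ 1` and `s = 1 - min v (0.06 δ)`. For all `α`
in `ℝ^m` outside a set of Hausdorff dimension at most `(m + d s + κ) / (1 + τ)`, and all `c`, for all but finitely many such
`q` EVERY integer `n ≥ 1` with `|n - G q| ≤ q^κ` reaches a value `≤ n^δ` within `B log n` steps and stays `≤ n^(1+v)` until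
then. So the maximum excursion `t(n)` of `n` is at most `n^(1+v)`, or it is the one of some `u ≤ n^δ`. For `τ = 1 / m` the
bound for the dimension is less than `m` if `d s + κ < 1`; and so the statement holds for almost all `α`.

Proof. The `q` such that some exceptional integer is near `G q` form a set with `O(X^(d s + κ + ε))` elements up to `X`, by the
starting library of this problem with the explicit constant of helper905 (`Pool.Agent.N905.EX.Law`); and the `α` with
`‖q α_j - β_j‖ ≤ c q^(-τ)` for all `j` and infinitely many `q` of such a set are covered by few small cubes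
(`Pool.Agent.N671.DA`, helper671).
-/

set_option autoImplicit false

namespace Pool.Agent.Results.MP_0a5adf_nt.SimultaneousApproximations

open Finset
open Pool.Agent.N671.DA (Solves Expanding expanding_pow approx_good)
open Pool.Agent.TH930.LT Pool.Agent.N905.EX

/-- the accelerated `3x+1` map -/
def T (n : ℕ) : ℕ := if n % 2 = 0 then n / 2 else (3 * n + 1) / 2

/-- within `B log n` steps the trajectory of `n` reaches a value `≤ y`, and it stays `≤ V` until then -/
def DescendsBelow (B y V : ℝ) (n : ℕ) : Prop :=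
  ∃ m : ℕ, (m : ℝ) ≤ B * Real.log n ∧ ((T^[m] n : ℕ) : ℝ) ≤ y ∧ ∀ j ≤ m, ((T^[j] n : ℕ) : ℝ) ≤ V

/-- the maximum excursion of `n` is at most `V` -/
def ExcursionLE (n : ℕ) (V : ℝ) : Prop := ∀ k, ((T^[k] n : ℕ) : ℝ) ≤ V

lemma T_eq : T = Pool.Agent.Helper894.Collatz.T := rfl

lemma exc_iff {B y V : ℝ} {n : ℕ} : ¬ DescendsBelow B y V n ↔ excBad B y V n := by
  unfold DescendsBelow excBad
  rw [T_eq, not_iff_not]
  apply exists_congr
  intro m
  tauto

lemma law : ∃ B C : ℝ, 0 < B ∧ 0 < C ∧ ∀ x y V : ℝ, 2 ≤ x → 1 ≤ y → x ≤ V →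
    ({n : ℕ | 1 ≤ n ∧ (n : ℝ) ≤ x ∧ ¬ DescendsBelow B y V n}.ncard : ℝ) ≤
      C * Real.log x ^ 4 * (x ^ 2 / V + x / y ^ (6 / 100 : ℝ)) := by
  obtain ⟨a, C₁, ha0, -, hC₁, hQ⟩ := card_Ps
  obtain ⟨C₂, hC₂, hW⟩ := card_Wx
  have e94 : (1 : ℝ) - 6 / 100 = 94 / 100 := by norm_num
  obtain ⟨C, hC, h⟩ := exc_law (c := 6 / 100) (B := 2 / a) ha0 hC₁ hC₂
    (fun i => by rw [e94]; exact hQ i) (fun V hV i => by rw [e94]; exact hW V hV i)
    (by positivity) (by rw [div_mul_cancel₀ _ ha0.ne']; norm_num) (by norm_num) (by norm_num)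
  refine ⟨2 / a, C, by positivity, hC, fun x y V hx hy hV => ?_⟩
  rw [add_comm (x ^ 2 / V)]
  refine le_trans (le_of_eq ?_) (h x y V hx hy hV)
  congr 2
  ext n
  simp only [Set.mem_ofPred_eq]
  constructor
  · rintro ⟨h1, h2, h3⟩
    exact ⟨h1, h2, exc_iff.1 h3⟩
  · rintro ⟨h1, h2, h3⟩
    exact ⟨h1, h2, exc_iff.2 h3⟩

lemma mono {B y y' V V' : ℝ} {n : ℕ} (hy : y ≤ y') (hV : V ≤ V') (h : DescendsBelow B y V n) :
    DescendsBelow B y' V' n := by
  obtain ⟨m, h1, h2, h3⟩ := h
  exact ⟨m, h1, h2.trans hy, fun j hj => (h3 j hj).trans hV⟩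

/-- **Excursions near the denominators of good approximations.** There is `B` such that for all `G` with steps
`≥ const > 0` and growth at most `v^d`, all `0 < v ≤ 1`, `δ > 0`, `0 ≤ κ ≤ 1`, all `β` in `ℝ^m` and `τ > 0`: for all `α` in
`ℝ^m` outside a set of Hausdorff dimension at most `(m + d (1 - min v (0.06 δ)) + κ) / (1 + τ)` and all `c`, for all large `q`
with `‖q α_j - β_j‖ ≤ c q^(-τ)` for all `j`, EVERY integer `n ≥ 1` with `|n - G q| ≤ q^κ` reaches a value `≤ n^δ` within
`B log n` steps and stays `≤ n^(1+v)` until then. If `n` has this property then for some `u ≤ n^δ` in its trajectory and all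
`V ≥ n^(1+v)` the maximum excursion of `n` is `≤ V` if and only if the one of `u` is. The functions `a v^d` with `a > 0`,
`d ≥ 1` are examples of `G`. -/
theorem result :
    (∃ B : ℝ, 0 < B ∧
      ∀ (G : ℕ → ℝ) (d : ℝ), Expanding G d → ∀ v δ κ : ℝ, 0 < v → v ≤ 1 → 0 < δ → 0 ≤ κ → κ ≤ 1 →
        ∀ (m : ℕ) (β : Fin m → ℝ) (τ : ℝ), 0 < τ →
        ∃ E : Set (Fin m → ℝ),
          dimH E ≤ ENNReal.ofReal ((m + (d * (1 - min v (6 / 100 * δ)) + κ)) / (1 + τ)) ∧
          ∀ α, α ∉ E → ∀ c : ℝ, ∃ Q : ℕ, ∀ q : ℕ, Q ≤ q → Solves α β q (c * (q : ℝ) ^ (-τ)) →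
            ∀ n : ℕ, 1 ≤ n → |(n : ℝ) - G q| ≤ (q : ℝ) ^ κ →
              DescendsBelow B ((n : ℝ) ^ δ) ((n : ℝ) ^ (1 + v)) n) ∧
    (∀ (B v δ : ℝ) (n : ℕ), DescendsBelow B ((n : ℝ) ^ δ) ((n : ℝ) ^ (1 + v)) n →
      ∃ u k : ℕ, T^[k] n = u ∧ (u : ℝ) ≤ (n : ℝ) ^ δ ∧
        ∀ V : ℝ, (n : ℝ) ^ (1 + v) ≤ V → (ExcursionLE n V ↔ ExcursionLE u V)) ∧
    ∀ a d : ℝ, 0 < a → 1 ≤ d → Expanding (fun v => a * (v : ℝ) ^ d) d := by
  obtain ⟨B, C, hB, hC, law⟩ := law
  refine ⟨⟨B, hB, fun G d hG v δ κ hv hv1 hδ hκ hκ1 m β τ hτ => ?_⟩, ?_,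
    fun a d ha hd => expanding_pow ha hd⟩
  · exact approx_good (fun n : ℕ => 1 ≤ n)
      (fun n => DescendsBelow B ((n : ℝ) ^ δ) ((n : ℝ) ^ (1 + v)) n)
      (fun n : ℕ => (n : ℝ)) hG (s := 1 - min v (6 / 100 * δ)) (κ := κ)
      (by linarith [min_le_left v (6 / 100 * δ)]) hκ hκ1
      (Pool.Agent.N481.MV.two_scale (Bad := fun y V n => ¬ DescendsBelow B y V n) hv hv1 hδ hC.le
        (fun y y' V V' n hy hV h h' => h (mono hy hV h')) (fun x y V hx hy hV => law x y V hx hy hV))
      β hτ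
  · rintro B v δ n ⟨m, h1, h2, h3⟩
    refine ⟨T^[m] n, m, rfl, h2, fun V hV => ⟨fun h k => ?_, fun h k => ?_⟩⟩
    · rw [← Function.iterate_add_apply]
      exact h _
    · rcases Nat.lt_or_ge k m with hk | hk
      · exact (h3 k hk.le).trans hV
      · have h4 := h (k - m)
        rw [← Function.iterate_add_apply, Nat.sub_add_cancel hk] at h4
        exact h4

end Pool.Agent.Results.MP_0a5adf_nt.SimultaneousApproximations
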