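import Mathlib
import Pool.Agent.N909.CM.Cst

set_option autoImplicit false

/-!
# Total stopping times in random Collatz maps

A random Collatz map decides for every integer `n`, one after the other, whether `n` goes up to
`⌊(3n+1)/2⌋` (a step counted twice, as `3n+1` and its half) or down to `⌊n/2⌋`; we only assume that the
conditional probability of going up, given the earlier decisions, tends to `1/2` (no independence, no
rate).  Almost surely all trajectories of this one map are finite, and for all large `n` the whole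
trajectory of `n` has at most `67.2 log n` steps, in particular at most `n`.
-/

open MeasureTheory Filter
open scoped Topology

namespace Pool.Agent.Results.MP_e43fce_nt.RandomMaps

/-- the Collatz map in which the elements of `S` go up -/
noncomputable def colT (S : Set ℕ) (n : ℕ) : ℕ :=
  open Classical in if n ∈ S then (3 * n + 1) / 2 else n / 2

/-- the trajectory of `n` -/
def traj (S : Set ℕ) (n : ℕ) : Set ℕ := Set.range (fun i => (colT S)^[i] n)

/-- the number of steps on the trajectory of `n`, each step up counted twice -/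
noncomputable def steps (S : Set ℕ) (n : ℕ) : ℕ := (traj S n).ncard + (traj S n ∩ S).ncard

open Pool.Agent.R528.RM Pool.Agent.N909.CM

variable {Ω : Type} {B : ℕ → Set Ω}

lemma colT_eq (ω : Ω) : colT {n | ω ∈ B n} = T B ω := by
  funext n
  unfold colT T
  simp only [Set.mem_ofPred_eq]

lemma traj_eq (ω : Ω) (n : ℕ) : traj {n | ω ∈ B n} n = orb (T B ω) n := by
  unfold traj orb
  rw [colT_eq]

lemma steps_eq (ω : Ω) (n : ℕ) : steps {n | ω ∈ B n} n = (orb (T B ω) n).ncard + hgt B ω n := by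
  unfold steps hgt
  rw [traj_eq]
  rfl

lemma num : (Real.exp (521 / 25000) * (3 / 2 : ℝ) ^ (2 / 5 : ℝ) + (1 / 2 : ℝ) ^ (2 / 5 : ℝ)) / 2 <
    Real.exp (-(521 / 25000)) := by
  have h1 : (3 / 2 : ℝ) ^ (2 / 5 : ℝ) ≤ 117608 / 100000 := by
    have e : ((3 / 2 : ℝ) ^ (2 / 5 : ℝ)) ^ 5 = 9 / 4 := by
      rw [← Real.rpow_natCast, ← Real.rpow_mul (by norm_num)]
      norm_num
    by_contra h
    push Not at h
    have h1 := pow_lt_pow_left₀ h (by norm_num) (by norm_num : 5 ≠ 0)
    rw [e] at h1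
    norm_num at h1
  have h2 : (1 / 2 : ℝ) ^ (2 / 5 : ℝ) ≤ 75786 / 100000 := by
    have e : ((1 / 2 : ℝ) ^ (2 / 5 : ℝ)) ^ 5 = 1 / 4 := by
      rw [← Real.rpow_natCast, ← Real.rpow_mul (by norm_num)]
      norm_num
    by_contra h
    push Not at h
    have h1 := pow_lt_pow_left₀ h (by norm_num) (by norm_num : 5 ≠ 0)
    rw [e] at h1
    norm_num at h1
  have h3 : Real.exp (521 / 25000) ≤ 1021059 / 1000000 := by
    have := Real.exp_bound' (x := 521 / 25000) (by norm_num) (by norm_num) (n := 4) (by norm_num)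
    refine this.trans ?_
    norm_num [Finset.sum_range_succ, Nat.factorial]
  have h4 : 0 < Real.exp (521 / 25000) := Real.exp_pos _
  have h5 : 0 < (3 / 2 : ℝ) ^ (2 / 5 : ℝ) := by positivity
  have h6 : 0 < (1 / 2 : ℝ) ^ (2 / 5 : ℝ) := by positivity
  rw [Real.exp_neg, ← one_div, lt_div_iff₀ h4]
  calc (Real.exp (521 / 25000) * (3 / 2 : ℝ) ^ (2 / 5 : ℝ) + (1 / 2 : ℝ) ^ (2 / 5 : ℝ)) / 2 * Real.exp (521 / 25000)
      ≤ (1021059 / 1000000 * (117608 / 100000) + 75786 / 100000) / 2 * (1021059 / 1000000) := by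
        gcongr
    _ < 1 := by norm_num

/-- **Total stopping times in random Collatz maps.**  Let `(ℱ n)` be a filtration and `B n ∈ ℱ n` events
(`n` goes up) with `P(B (n+1) | ℱ n) → 1/2` almost surely.  Then almost surely every trajectory is finite;
for all large `n` the trajectory of `n` has at most `67.2 log n` steps, in particular at most `n`; and for
every `ε > 0`, for all large `n`, all its values are at most `n ^ (2 + ε)`. -/
theorem result {Ω : Type} {m0 : MeasurableSpace Ω} (μ : Measure Ω) [IsProbabilityMeasure μ]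
    (ℱ : Filtration ℕ m0) (B : ℕ → Set Ω) (hB : ∀ n, MeasurableSet[ℱ n] (B n))
    (hd : ∀ᵐ ω ∂μ, Tendsto (fun n : ℕ => (μ[(B (n + 1)).indicator (fun _ => (1 : ℝ)) | ℱ n]) ω) atTop (𝓝 (1 / 2))) :
    ∀ᵐ ω ∂μ, (∀ n, (traj {k | ω ∈ B k} n).Finite) ∧
      (∀ᶠ n : ℕ in atTop, (steps {k | ω ∈ B k} n : ℝ) ≤ 67.2 * Real.log n) ∧
      (∀ᶠ n : ℕ in atTop, steps {k | ω ∈ B k} n ≤ n) ∧
      ∀ ε : ℝ, 0 < ε → ∀ᶠ n : ℕ in atTop, ∀ x ∈ traj {k | ω ∈ B k} n, (x : ℝ) ≤ (n : ℝ) ^ (2 + ε) := by
  have h1 := all_finite (μ := μ) (ℱ := ℱ) hB hd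
  have h2 := csteps (μ := μ) (ℱ := ℱ) hB hd (θ := 2 / 5) (t := 521 / 25000) (γ := 67.2) (by norm_num) (by norm_num) num
    (by norm_num)
  have h3 : ∀ᵐ ω ∂μ, ∀ m : ℕ, ∀ᶠ n : ℕ in atTop, ∀ x ∈ orb (T B ω) n, (x : ℝ) ≤ (n : ℝ) ^ (2 + 1 / ((m : ℝ) + 1)) :=
    ae_all_iff.2 fun m => largest (μ := μ) (ℱ := ℱ) hB hd (by positivity)
  filter_upwards [h1, h2, h3] with ω g1 g2 g3
  refine ⟨fun n => by rw [traj_eq]; exact g1 n, ?_, ?_, ?_⟩
  · filter_upwards [g2] with n hn
    rw [steps_eq]
    exact hn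
  · have hlo : (fun x : ℝ => Real.log x) =o[atTop] (fun x : ℝ => x) := Real.isLittleO_log_id_atTop
    have hlo2 := (hlo.comp_tendsto tendsto_natCast_atTop_atTop).bound (show (0 : ℝ) < 1 / 67.2 by norm_num)
    filter_upwards [g2, hlo2, eventually_ge_atTop 1] with n hn hn2 hn3
    rw [steps_eq]
    simp only [Function.comp_apply, Real.norm_eq_abs] at hn2
    have hn4 : (1 : ℝ) ≤ n := by exact_mod_cast hn3
    rw [abs_of_nonneg (Real.log_nonneg hn4), abs_of_nonneg (by positivity)] at hn2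
    have : (((orb (T B ω) n).ncard + hgt B ω n : ℕ) : ℝ) ≤ n := by
      refine hn.trans ?_
      linarith
    exact_mod_cast this
  · intro ε hε
    obtain ⟨m, hm⟩ := exists_nat_one_div_lt hε
    filter_upwards [g3 m, eventually_ge_atTop 1] with n hn hn1 x hx
    rw [traj_eq] at hx
    refine (hn x hx).trans (Real.rpow_le_rpow_of_exponent_le (by exact_mod_cast hn1) (by linarith))

end Pool.Agent.Results.MP_e43fce_nt.RandomMaps
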