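import Pool.Agent.N671.DA.Win
import Pool.Agent.Results.MP_a1568a_nt.MultiplicativeValues

/-!
# The `3x+1` map in logarithmic time near functions of the denominators of good approximations

Let `α_1, …, α_m` be real numbers. We consider the natural numbers `q` with `‖q α_j - β_j‖ ≤ c q^(-τ)` for all `j`, `‖x‖` the
distance to the nearest integer; for `β = 0`, `c = 1`, `τ = 1 / m` these include the denominators of all best simultaneous
approximations (the denominators of the convergents for `m = 1`). They form a very sparse sequence, with gaps growing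
exponentially for almost all `α` if `τ = 1 / m`. Let `G` be a function with steps bounded below by a positive constant and
growth at most `x^d`, for example `a x^d`, and let `0 ≤ κ ≤ 1`.

* For every `ε > 0` there is `c₀ > 0` such that for `0 < v ≤ 1` and `δ > 0`: for all `α` in `ℝ^m` outside a set of Hausdorff
  dimension at most `(m + d (1 - min v (c₀ δ)) + κ) / (1 + τ)`, and all `c`, for all but finitely many such `q` the trajectory
  of EVERY integer `n ≥ 1` with `|n - G q| ≤ q^κ` follows the law of the random walk: it reaches a value `≤ n^δ` in at most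
  `(1 + ε) (2 / log (4/3)) log n` steps, and until then `log T^j n` is `log n - (j/2) log (4/3)` up to `ε log n`, and
  `T^j n ≤ n^(1+v)`.
* Let `B` be large and `0 < δ ≤ 1`. For all `α` in `ℝ^m` outside a set of Hausdorff dimension at most
  `(m + d (1 - 0.06 δ) + κ) / (1 + τ)` the conjectured inequality is inherited by EVERY integer `n ≥ 1` with
  `|n - G q| ≤ q^κ`: `n` reaches some `u ≤ n^δ` in at most `B log (n / u)` steps; so `n` reaches `1` in at most `B log n`
  steps, if `u` reaches `1` in at most `B log u` steps.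

For `τ = 1 / m` the bounds are less than `m` if `d (1 - min v (c₀ δ)) + κ < 1`, `d (1 - 0.06 δ) + κ < 1`, and so the
statements hold for almost all `α`.

Proof. The `q` such that some exceptional integer is near `G q` form a set with `O(X^(d s + κ + ε'))` elements up to `X`, where
`s = 1 - min v (c₀ δ)`, `s = 1 - 0.06 δ`, by the starting theorem `PowerSavingLaw` and by the explicit constant of helper905
(`Pool.Agent.N905.EX.Law`); and the `α` with `‖q α_j - β_j‖ ≤ c q^(-τ)` for all `j` and infinitely many `q` of such a set are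
covered by few small cubes.
-/

set_option autoImplicit false

namespace Pool.Agent.Results.MP_a1568a_nt.SimultaneousApproximations

open Pool.Agent.N671.DA (Solves Expanding expanding_pow approx_good)
open Pool.Agent.Results.MP_a1568a_nt.PowerSavingLaw (T Regular T_eq)
open Pool.Agent.Results.MP_a1568a_nt.MultiplicativeValues (Descends Fast regular_mono desc_mono descent_law iter_pos)

/-- **Trajectories near the denominators of good approximations.** Let `G` have steps `≥ const > 0` and growth at most `x^d`,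
`0 ≤ κ ≤ 1`, `β` in `ℝ^m` and `τ > 0`. (1) For every `ε > 0` there is `c₀ > 0`, not depending on `G`, `β`, such that for
`0 < v ≤ 1`, `δ > 0`: for all `α` in `ℝ^m` outside a set of Hausdorff dimension at most
`(m + d (1 - min v (c₀ δ)) + κ) / (1 + τ)` and all `c`, for all large `q` with `‖q α_j - β_j‖ ≤ c q^(-τ)` for all `j`, EVERY
integer `n ≥ 1` with `|n - G q| ≤ q^κ` satisfies `Regular ε (n^δ) (n^(1+v))`. (2) There is `B₁` such that for `B ≥ B₁` and
`0 < δ ≤ 1`: for all `α` outside a set of dimension at most `(m + d (1 - 0.06 δ) + κ) / (1 + τ)` and all `c`, for all large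
`q` with `‖q α_j - β_j‖ ≤ c q^(-τ)` for all `j`, EVERY integer `n ≥ 1` with `|n - G q| ≤ q^κ` reaches some `u ≤ n^δ` after at
most `B log (n / u)` steps. (3) Such an `n` reaches `1` after at most `B log n` steps, if this is true for all `u ≤ n^δ`. The
functions `a x^d` with `a > 0`, `d ≥ 1` are examples of `G`. -/
theorem result :
    (∀ ε : ℝ, 0 < ε → ∃ c₀ : ℝ, 0 < c₀ ∧
      ∀ (G : ℕ → ℝ) (d : ℝ), Expanding G d → ∀ v δ κ : ℝ, 0 < v → v ≤ 1 → 0 < δ → 0 ≤ κ → κ ≤ 1 →
        ∀ (m : ℕ) (β : Fin m → ℝ) (τ : ℝ), 0 < τ →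
        ∃ E : Set (Fin m → ℝ), dimH E ≤ ENNReal.ofReal ((m + (d * (1 - min v (c₀ * δ)) + κ)) / (1 + τ)) ∧
          ∀ α, α ∉ E → ∀ c : ℝ, ∃ Q : ℕ, ∀ q : ℕ, Q ≤ q → Solves α β q (c * (q : ℝ) ^ (-τ)) →
            ∀ n : ℕ, 1 ≤ n → |(n : ℝ) - G q| ≤ (q : ℝ) ^ κ →
              Regular ε ((n : ℝ) ^ δ) ((n : ℝ) ^ (1 + v)) n) ∧
    (∃ B₁ : ℝ, 0 < B₁ ∧ ∀ B : ℝ, B₁ ≤ B →
      ∀ (G : ℕ → ℝ) (d : ℝ), Expanding G d → ∀ δ κ : ℝ, 0 < δ → δ ≤ 1 → 0 ≤ κ → κ ≤ 1 →
        ∀ (m : ℕ) (β : Fin m → ℝ) (τ : ℝ), 0 < τ →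
        ∃ E : Set (Fin m → ℝ), dimH E ≤ ENNReal.ofReal ((m + (d * (1 - 6 / 100 * δ) + κ)) / (1 + τ)) ∧
          ∀ α, α ∉ E → ∀ c : ℝ, ∃ Q : ℕ, ∀ q : ℕ, Q ≤ q → Solves α β q (c * (q : ℝ) ^ (-τ)) →
            ∀ n : ℕ, 1 ≤ n → |(n : ℝ) - G q| ≤ (q : ℝ) ^ κ → Descends B ((n : ℝ) ^ δ) n) ∧
    (∀ (B δ : ℝ) (n : ℕ), 1 ≤ n → Descends B ((n : ℝ) ^ δ) n →
      (∀ u : ℕ, 1 ≤ u → (u : ℝ) ≤ (n : ℝ) ^ δ → Fast B u) → Fast B n) ∧
    ∀ a d : ℝ, 0 < a → 1 ≤ d → Expanding (fun v => a * (v : ℝ) ^ d) d := by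
  refine ⟨fun ε hε => ?_, ?_, MultiplicativeValues.result.2.2.1, fun α d hα hd => expanding_pow hα hd⟩
  · obtain ⟨c, C, hc, hC, law⟩ := PowerSavingLaw.result ε hε
    refine ⟨c, hc, fun G d hG v δ κ hv hv1 hδ hκ hκ1 m β τ hτ => ?_⟩
    exact approx_good (fun n : ℕ => 1 ≤ n) (fun n => Regular ε ((n : ℝ) ^ δ) ((n : ℝ) ^ (1 + v)) n)
      (fun n : ℕ => (n : ℝ)) hG (s := 1 - min v (c * δ)) (κ := κ) (by linarith [min_le_left v (c * δ)]) hκ hκ1
      (Pool.Agent.N481.MV.two_scale (Bad := fun y V n => ¬ Regular ε y V n) hv hv1 hδ hC.le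
        (fun y y' V V' n hy hV h h' => h (regular_mono hy hV h'))
        (fun x y V hx hy hV => by rw [add_comm (x ^ 2 / V)]; exact law x y V hx hy hV)) β hτ
  · obtain ⟨B₁, C, hB₁, hC, law⟩ := descent_law
    refine ⟨B₁, hB₁, fun B hB G d hG δ κ hδ hδ1 hκ hκ1 m β τ hτ => ?_⟩
    have hmin : min 1 (6 / 100 * δ) = 6 / 100 * δ := min_eq_right (by linarith)
    exact approx_good (fun n : ℕ => 1 ≤ n) (fun n => Descends B ((n : ℝ) ^ δ) n)
      (fun n : ℕ => (n : ℝ)) hG (s := 1 - 6 / 100 * δ) (κ := κ) (by linarith) hκ hκ1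
      (by
        have h := Pool.Agent.N481.MV.two_scale (Bad := fun y _ n => ¬ Descends B y n) (c := 6 / 100) (v := 1) (p := 3)
          one_pos le_rfl hδ hC.le
          (fun y y' V V' n hy hV h h' => h (desc_mono (hB₁.trans_le hB) le_rfl hy h'))
          (fun x y V hx hy hV => by
            have h1 : (0 : ℝ) ≤ x ^ 2 / V := div_nonneg (by positivity) (by linarith)
            have h2 : 0 ≤ C * Real.log x ^ 3 := by
              have := Real.log_nonneg (show (1 : ℝ) ≤ x by linarith)
              positivity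
            refine (law B x y hB hx hy).trans (mul_le_mul_of_nonneg_left (by linarith) h2))
        rw [hmin] at h
        exact h) β hτ

end Pool.Agent.Results.MP_a1568a_nt.SimultaneousApproximations
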